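import Mathlib

/-! Limits of Borel transforms (helper870, for GA-RUB of helper121). -/

set_option autoImplicit false

open scoped BigOperators Topology ENNReal NNReal
open Filter MeasureTheory

namespace Pool.Agent.H870.GA

theorem den_ne (x : ℝ) {z : ℂ} (hz : z.im ≠ 0) : (x : ℂ) - z ≠ 0 := by
  intro h
  apply hz
  have := congrArg Complex.im h
  simpa using this

/-- the bounded continuous function `1 / (x - z)` -/
noncomputable def bt (z : ℂ) (hz : z.im ≠ 0) : BoundedContinuousFunction ℝ ℂ :=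
  BoundedContinuousFunction.ofNormedAddCommGroup (fun x : ℝ => ((x : ℂ) - z)⁻¹)
    (Continuous.inv₀ (Complex.continuous_ofReal.sub continuous_const) fun x => den_ne x hz)
    (1 / |z.im|) (fun x => by
      rw [norm_inv, one_div]
      refine inv_anti₀ (abs_pos.mpr hz) ?_
      have h := Complex.abs_im_le_norm ((x : ℂ) - z)
      rw [Complex.sub_im, Complex.ofReal_im, zero_sub, abs_neg] at h
      exact h)

theorem bt_apply (z : ℂ) (hz : z.im ≠ 0) (x : ℝ) : bt z hz x = ((x : ℂ) - z)⁻¹ := rfl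

theorem bt_im (r : ℝ) (x : ℝ) :
    (((x : ℂ) - (r : ℂ) * Complex.I)⁻¹).im = r / (x ^ 2 + r ^ 2) := by
  rw [Complex.inv_im, Complex.normSq_apply]
  simp only [Complex.sub_re, Complex.ofReal_re, Complex.mul_re, Complex.I_re, mul_zero,
    Complex.ofReal_im, Complex.I_im, mul_one, sub_self, sub_zero, Complex.sub_im, Complex.mul_im,
    add_zero, zero_sub, neg_neg]
  congr 1
  ring

/-- the mass outside of `[-r, r]` -/
theorem mass_out (C : ℝ) (hC : 0 ≤ C) (m : Measure ℝ) [IsFiniteMeasure m]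
    (hm : m Set.univ = ENNReal.ofReal C) (r : ℝ) (hr : 0 < r) :
    m {x | r < ‖x‖} ≤
      ENNReal.ofReal (2 * (C - r * (∫ x : ℝ, ((x : ℂ) - (r : ℂ) * Complex.I)⁻¹ ∂m).im)) := by
  have hz : ((r : ℂ) * Complex.I).im ≠ 0 := by
    simpa using hr.ne'
  have hint : Integrable (fun x : ℝ => ((x : ℂ) - (r : ℂ) * Complex.I)⁻¹) m :=
    (bt _ hz).integrable m
  have him : (∫ x : ℝ, ((x : ℂ) - (r : ℂ) * Complex.I)⁻¹ ∂m).im =
      ∫ x : ℝ, r / (x ^ 2 + r ^ 2) ∂m := by
    have h := integral_im (𝕜 := ℂ) hint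
    simp only [RCLike.im_to_complex, bt_im] at h
    exact h.symm
  have hint2 : Integrable (fun x : ℝ => r / (x ^ 2 + r ^ 2)) m := by
    have h := hint.im
    simp only [RCLike.im_to_complex, bt_im] at h
    exact h
  have hg : Integrable (fun x : ℝ => 1 - r * (r / (x ^ 2 + r ^ 2))) m :=
    (integrable_const 1).sub (hint2.const_mul r)
  have hmr : m.real Set.univ = C := by
    rw [Measure.real, hm, ENNReal.toReal_ofReal hC]
  have hgi : ∫ x : ℝ, (1 - r * (r / (x ^ 2 + r ^ 2))) ∂m =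
      C - r * ∫ x : ℝ, r / (x ^ 2 + r ^ 2) ∂m := by
    rw [integral_sub (integrable_const 1) (hint2.const_mul r), integral_const, hmr,
      integral_const_mul, smul_eq_mul, mul_one]
  have hpos : ∀ x : ℝ, 0 < x ^ 2 + r ^ 2 := fun x => by positivity
  have hval : ∀ x : ℝ, 1 - r * (r / (x ^ 2 + r ^ 2)) = x ^ 2 / (x ^ 2 + r ^ 2) := by
    intro x
    have := (hpos x).ne'
    field_simp
    ring
  have hnn : ∀ x : ℝ, 0 ≤ 1 - r * (r / (x ^ 2 + r ^ 2)) := by
    intro x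
    rw [hval]
    exact div_nonneg (sq_nonneg _) (hpos x).le
  have hmark := mul_meas_ge_le_integral_of_nonneg (Filter.Eventually.of_forall hnn) hg (1 / 2)
  rw [hgi] at hmark
  have hsub : {x : ℝ | r < ‖x‖} ⊆ {x : ℝ | 1 / 2 ≤ 1 - r * (r / (x ^ 2 + r ^ 2))} := by
    intro x hx
    have hx : r < |x| := hx
    show 1 / 2 ≤ 1 - r * (r / (x ^ 2 + r ^ 2))
    rw [hval, div_le_div_iff₀ two_pos (hpos x)]
    have h2 : r ^ 2 ≤ x ^ 2 := by
      rw [← sq_abs x]
      exact pow_le_pow_left₀ hr.le hx.le 2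
    linarith
  rw [him]
  refine (measure_mono hsub).trans ?_
  have h3 : m.real {x : ℝ | 1 / 2 ≤ 1 - r * (r / (x ^ 2 + r ^ 2))} ≤
      2 * (C - r * ∫ x : ℝ, r / (x ^ 2 + r ^ 2) ∂m) := by
    linarith
  rw [← ENNReal.ofReal_toReal (measure_ne_top m {x : ℝ | 1 / 2 ≤ 1 - r * (r / (x ^ 2 + r ^ 2))})]
  exact ENNReal.ofReal_le_ofReal h3

theorem herg_limit (C : ℝ) (hC : 0 ≤ C) (mn : ℕ → Measure ℝ) (hfin : ∀ n, IsFiniteMeasure (mn n))
    (hmass : ∀ n, mn n Set.univ = ENNReal.ofReal C) (F : ℂ → ℂ)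
    (hF : ∀ z : ℂ, z.im ≠ 0 → Tendsto (fun n => ∫ x : ℝ, ((x : ℂ) - z)⁻¹ ∂(mn n)) atTop (𝓝 (F z)))
    (hlim : Tendsto (fun r : ℝ => r * (F ((r : ℂ) * Complex.I)).im) atTop (𝓝 C)) :
    ∃ m : Measure ℝ, IsFiniteMeasure m ∧ m Set.univ = ENNReal.ofReal C ∧
      ∀ z : ℂ, z.im ≠ 0 → F z = ∫ x : ℝ, ((x : ℂ) - z)⁻¹ ∂m := by
  -- tightness
  have htight : IsTightMeasureSet (Set.range mn) := by
    apply isTightMeasureSet_range_of_tendsto_limsup_measure_norm_gt
    have hh : Tendsto (fun r : ℝ => ENNReal.ofReal (2 * (C - r * (F ((r : ℂ) * Complex.I)).im)))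
        atTop (𝓝 0) := by
      have h1 : Tendsto (fun r : ℝ => 2 * (C - r * (F ((r : ℂ) * Complex.I)).im)) atTop (𝓝 0) := by
        have h2 := (tendsto_const_nhds (x := C)).sub hlim
        have h3 := h2.const_mul 2
        rw [sub_self, mul_zero] at h3
        exact h3
      have h4 := ENNReal.tendsto_ofReal h1
      rw [ENNReal.ofReal_zero] at h4
      exact h4
    refine tendsto_of_tendsto_of_tendsto_of_le_of_le' tendsto_const_nhds hh
      (Eventually.of_forall fun r => bot_le) ?_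
    filter_upwards [eventually_gt_atTop (0 : ℝ)] with r hr
    have hz : ((r : ℂ) * Complex.I).im ≠ 0 := by
      simpa using hr.ne'
    have h5 : Tendsto (fun n => ENNReal.ofReal (2 * (C - r *
        (∫ x : ℝ, ((x : ℂ) - (r : ℂ) * Complex.I)⁻¹ ∂(mn n)).im))) atTop
        (𝓝 (ENNReal.ofReal (2 * (C - r * (F ((r : ℂ) * Complex.I)).im)))) := by
      refine ENNReal.tendsto_ofReal ?_
      have h6 := (Complex.continuous_im.tendsto _).comp (hF _ hz)
      exact ((tendsto_const_nhds (x := C)).sub (h6.const_mul r)).const_mul 2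
    rw [← h5.limsup_eq]
    refine limsup_le_limsup (Eventually.of_forall fun n => ?_)
    have := hfin n
    exact mass_out C hC (mn n) (hmass n) r hr
  rw [isTightMeasureSet_iff_exists_isCompact_measure_compl_le] at htight
  have hK : ∀ k : ℕ, ∃ K : Set ℝ, IsCompact K ∧ ∀ n, mn n Kᶜ ≤ ((1 / ((k : ℝ≥0) + 1) : ℝ≥0) : ℝ≥0∞) := by
    intro k
    have hpos : (0 : ℝ≥0∞) < ((1 / ((k : ℝ≥0) + 1) : ℝ≥0) : ℝ≥0∞) := by
      rw [ENNReal.coe_pos]
      positivity
    obtain ⟨K, hKc, hK⟩ := htight _ hpos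
    exact ⟨K, hKc, fun n => hK _ ⟨n, rfl⟩⟩
  choose K hKc hKm using hK
  have hu : Tendsto (fun k : ℕ => (1 / ((k : ℝ≥0) + 1) : ℝ≥0)) atTop (𝓝 0) :=
    tendsto_one_div_add_atTop_nhds_zero_nat
  have hcomp := isCompact_setOfPred_finiteMeasure_mass_eq_compl_isCompact_le (E := ℝ)
    (Real.toNNReal C) hu hKc (Or.inl inferInstance)
  rw [isCompact_iff_ultrafilter_le_nhds'] at hcomp
  let M : ℕ → FiniteMeasure ℝ := fun n => ⟨mn n, hfin n⟩
  have hM : ∀ n, M n ∈ {μ : FiniteMeasure ℝ | μ.mass = Real.toNNReal C ∧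
      ∀ k, μ (K k)ᶜ ≤ 1 / ((k : ℝ≥0) + 1)} := by
    intro n
    constructor
    · show (mn n Set.univ).toNNReal = _
      rw [hmass n]
      rfl
    · intro k
      rw [← ENNReal.coe_le_coe, FiniteMeasure.ennreal_coeFn_eq_coeFn_toMeasure]
      exact hKm k n
  obtain ⟨μ, ⟨hμ1, -⟩, hμ⟩ := hcomp (Ultrafilter.map M (hyperfilter ℕ))
    (Ultrafilter.mem_map.mpr (Filter.univ_mem' hM))
  have hT : Tendsto M (hyperfilter ℕ : Filter ℕ) (𝓝 μ) := hμ
  refine ⟨μ, inferInstance, ?_, fun z hz => ?_⟩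
  · have h7 : (μ.mass : ℝ≥0∞) = (μ : Measure ℝ) Set.univ := FiniteMeasure.ennreal_mass
    rw [← h7, hμ1]
    rfl
  · rw [FiniteMeasure.tendsto_iff_forall_integral_rclike_tendsto ℂ] at hT
    have h8 := hT (bt z hz)
    have h9 := (hF z hz).mono_left (Nat.hyperfilter_le_atTop)
    exact tendsto_nhds_unique h9 h8

end Pool.Agent.H870.GA
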