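import Pool.Agent.H121.GA.IfB
import Pool.Agent.H870.GA.Herg
import Pool.Agent.H304.Z987.Green

/-! GA-RUB (helper870 for helper121): resolvent family of `T + V`, spectral measures. -/

set_option autoImplicit false

open scoped BigOperators InnerProductSpace Topology ENNReal NNReal
open Filter MeasureTheory

namespace Pool.Agent.H870.GA

open Pool.Agent.Y662.TR
open Pool.Agent.TH369.AN (Rz rz_eq rz_uniq rz_norm)
open Pool.Agent.TH369.MU (SpM spm_exists)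
open Pool.Agent.H987.Z (Rs Gr)
open Pool.Agent.H304.Z987 (mul_summable' Gr_symm rz_sub_z)
open Pool.Agent.H121.GA

variable {ι : Type}

theorem HW_rs (T : LL ι →L[ℂ] LL ι) (hT : Rs T) (b : ℝ) (V : ι → ℝ) : Rs (HW T b V) := by
  refine ⟨hT.sa.add (Mw_sa b V), fun u v => ?_⟩
  have h1 : ∀ x, HW T b V u x * v x = T u x * v x + Mw b V u x * v x := by
    intro x
    have : HW T b V u x = T u x + Mw b V u x := rfl
    rw [this]; ring
  have h2 : ∀ x, u x * HW T b V v x = u x * T v x + Mw b V u x * v x := by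
    intro x
    have : HW T b V v x = T v x + Mw b V v x := rfl
    rw [this, Mw_apply, Mw_apply]; ring
  rw [tsum_congr h1, tsum_congr h2,
    Summable.tsum_add (mul_summable' (T u) v) (mul_summable' (Mw b V u) v),
    Summable.tsum_add (mul_summable' u (T v)) (mul_summable' (Mw b V u) v), hT.bil u v]

theorem rz_ad (A : LL ι →L[ℂ] LL ι) (hA : IsSelfAdjoint A) (z : ℂ) (hz : z.im ≠ 0)
    (u v : LL ι) : ⟪Rz A z u, v⟫_ℂ = ⟪u, Rz A (starRingEnd ℂ z) v⟫_ℂ := by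
  have hz' : (starRingEnd ℂ z).im ≠ 0 := by
    rw [Complex.conj_im]
    exact neg_ne_zero.mpr hz
  obtain ⟨a, ha⟩ : ∃ a, a = Rz A z u := ⟨_, rfl⟩
  obtain ⟨b, hb⟩ : ∃ b, b = Rz A (starRingEnd ℂ z) v := ⟨_, rfl⟩
  have h1 : A a - z • a = u := by rw [ha]; exact rz_eq A hA z hz u
  have h2 : A b - (starRingEnd ℂ z) • b = v := by rw [hb]; exact rz_eq A hA _ hz' v
  have h3 : ⟪A a, b⟫_ℂ = ⟪a, A b⟫_ℂ :=
    (ContinuousLinearMap.isSelfAdjoint_iff_isSymmetric.mp hA) a b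
  rw [← ha, ← hb]
  conv_lhs => rw [← h2]
  conv_rhs => rw [← h1]
  rw [inner_sub_right, inner_smul_right, inner_sub_left, inner_smul_left, h3]

theorem clm_tend {α : Type} {l : Filter α} {A : α → (LL ι →L[ℂ] LL ι)} {A0 : LL ι →L[ℂ] LL ι}
    {v : α → LL ι} {v0 : LL ι} (hA : Tendsto A l (𝓝 A0)) (hv : Tendsto v l (𝓝 v0)) :
    Tendsto (fun a => A a (v a)) l (𝓝 (A0 v0)) :=
  ((isBoundedBilinearMap_apply (𝕜 := ℂ) (E := LL ι) (F := LL ι)).continuous.tendsto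
    (A0, v0)).comp (hA.prodMk_nhds hv)

theorem rz_opnorm (A : LL ι →L[ℂ] LL ι) (hA : IsSelfAdjoint A) (z : ℂ) (hz : z.im ≠ 0) :
    ‖Rz A z‖ ≤ 1 / |z.im| := by
  refine ContinuousLinearMap.opNorm_le_bound _ (by positivity) fun u => ?_
  refine (rz_norm A hA z hz u).trans (le_of_eq ?_)
  rw [div_mul_eq_mul_div, one_mul]

/-- the behaviour at infinity on the sites -/
theorem lim_dv (hA : S_ruA) (T : LL ι →L[ℂ] LL ι) (hT : Rs T) (V : ι → ℝ)
    (hnb : ∀ z : ℂ, z.im ≠ 0 → ‖RU T V z‖ ≤ 1 / |z.im|) (x : ι) :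
    Tendsto (fun r : ℝ => ((r : ℂ) * Complex.I) • RU T V ((r : ℂ) * Complex.I) (dv x) + dv x)
      atTop (𝓝 0) := by
  obtain ⟨h, hh⟩ : ∃ h : LL ι, h = T (dv x) + ((V x : ℝ) : ℂ) • dv x := ⟨_, rfl⟩
  have hlim : Tendsto (fun r : ℝ => ‖h‖ / r) atTop (𝓝 0) :=
    tendsto_const_nhds.div_atTop tendsto_id
  rw [tendsto_zero_iff_norm_tendsto_zero]
  refine tendsto_of_tendsto_of_tendsto_of_le_of_le' tendsto_const_nhds hlim
    (Eventually.of_forall fun r => norm_nonneg _) ?_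
  filter_upwards [eventually_gt_atTop (0 : ℝ)] with r hr
  have hz : ((r : ℂ) * Complex.I).im ≠ 0 := by
    simpa using hr.ne'
  have hzi : |((r : ℂ) * Complex.I).im| = r := by
    have : ((r : ℂ) * Complex.I).im = r := by simp
    rw [this, abs_of_pos hr]
  obtain ⟨z, hzz⟩ : ∃ z : ℂ, z = (r : ℂ) * Complex.I := ⟨_, rfl⟩
  rw [← hzz] at hz hzi ⊢
  obtain ⟨-, -, heq, huq⟩ := hA ι T hT V z hz
  have hkey : z • RU T V z (dv x) + dv x = RU T V z h := by
    refine huq h _ fun y => ?_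
    have h1 := heq (dv x) y
    rw [map_add, map_smul, add_coord, add_coord, smul_coord, smul_coord, hh, add_coord, smul_coord]
    have h2 : ((V y : ℝ) : ℂ) * (dv x : LL ι) y = ((V x : ℝ) : ℂ) * (dv x : LL ι) y := by
      by_cases hy : y = x
      · rw [hy]
      · rw [dv_ne hy, mul_zero, mul_zero]
    linear_combination z * h1 + h2
  rw [hkey]
  refine ((RU T V z).le_opNorm h).trans ?_
  have h3 := hnb z hz
  rw [hzi] at h3
  calc ‖RU T V z‖ * ‖h‖ ≤ 1 / r * ‖h‖ := mul_le_mul_of_nonneg_right h3 (norm_nonneg _)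
    _ = ‖h‖ / r := by ring

/-- the behaviour at infinity -/
theorem lim_vec (hA : S_ruA) (T : LL ι →L[ℂ] LL ι) (hT : Rs T) (V : ι → ℝ)
    (hnb : ∀ z : ℂ, z.im ≠ 0 → ‖RU T V z‖ ≤ 1 / |z.im|) (φ : LL ι) :
    Tendsto (fun r : ℝ => ((r : ℂ) * Complex.I) • RU T V ((r : ℂ) * Complex.I) φ + φ)
      atTop (𝓝 0) := by
  rw [Metric.tendsto_atTop]
  intro ε hε
  obtain ⟨s, hs⟩ := approx φ (ε / 4) (by positivity)
  obtain ⟨g, hg⟩ : ∃ g : LL ι, g = ∑ x ∈ s, φ x • dv x := ⟨_, rfl⟩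
  rw [← hg] at hs
  have hlg : Tendsto (fun r : ℝ => ((r : ℂ) * Complex.I) • RU T V ((r : ℂ) * Complex.I) g + g)
      atTop (𝓝 0) := by
    have h1 : ∀ r : ℝ, ((r : ℂ) * Complex.I) • RU T V ((r : ℂ) * Complex.I) g + g =
        ∑ x ∈ s, φ x • (((r : ℂ) * Complex.I) • RU T V ((r : ℂ) * Complex.I) (dv x) + dv x) := by
      intro r
      rw [hg, map_sum, Finset.smul_sum, ← Finset.sum_add_distrib]
      refine Finset.sum_congr rfl fun x _ => ?_
      rw [map_smul, smul_add, smul_comm]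
    have h2 : Tendsto (fun r : ℝ =>
        ∑ x ∈ s, φ x • (((r : ℂ) * Complex.I) • RU T V ((r : ℂ) * Complex.I) (dv x) + dv x))
        atTop (𝓝 (∑ x ∈ s, φ x • (0 : LL ι))) :=
      tendsto_finsetSum _ fun x _ => (lim_dv hA T hT V hnb x).const_smul (φ x)
    have h3 : ∑ x ∈ s, φ x • (0 : LL ι) = 0 := by simp
    rw [h3] at h2
    refine h2.congr fun r => (h1 r).symm
  rw [Metric.tendsto_atTop] at hlg
  obtain ⟨r0, hr0⟩ := hlg (ε / 4) (by positivity)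
  refine ⟨max r0 1, fun r hr => ?_⟩
  have hr1 : 0 < r := lt_of_lt_of_le one_pos ((le_max_right _ _).trans hr)
  have h4 := hr0 r ((le_max_left _ _).trans hr)
  rw [dist_zero_right] at h4 ⊢
  obtain ⟨z, hzz⟩ : ∃ z : ℂ, z = (r : ℂ) * Complex.I := ⟨_, rfl⟩
  have hzim : z.im = r := by rw [hzz]; simp
  have hzn : ‖z‖ = r := by
    rw [hzz, norm_mul, Complex.norm_I, mul_one, Complex.norm_real, Real.norm_of_nonneg hr1.le]
  rw [← hzz] at h4 ⊢
  have h5 : z • RU T V z φ + φ = (z • RU T V z g + g) + (z • RU T V z (φ - g) + (φ - g)) := by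
    rw [map_sub, smul_sub]
    abel
  have h6 : ‖z • RU T V z (φ - g)‖ ≤ ‖φ - g‖ := by
    rw [norm_smul, hzn]
    have h7 := hnb z (by rw [hzim]; exact hr1.ne')
    rw [hzim, abs_of_pos hr1] at h7
    calc r * ‖RU T V z (φ - g)‖ ≤ r * (1 / r * ‖φ - g‖) := by
          refine mul_le_mul_of_nonneg_left (((RU T V z).le_opNorm _).trans ?_) hr1.le
          exact mul_le_mul_of_nonneg_right h7 (norm_nonneg _)
      _ = ‖φ - g‖ := by field_simp
  rw [h5]
  calc ‖(z • RU T V z g + g) + (z • RU T V z (φ - g) + (φ - g))‖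
      ≤ ‖z • RU T V z g + g‖ + (‖z • RU T V z (φ - g)‖ + ‖φ - g‖) :=
        (norm_add_le _ _).trans (by gcongr; exact norm_add_le _ _)
    _ < ε := by linarith

theorem ruB (hA : S_ruA) : S_ruB := by
  intro ι T hT V
  have hrs : ∀ n : ℕ, Rs (HW T (n : ℝ) V) := fun n => HW_rs T hT n V
  have htd : ∀ z : ℂ, z.im ≠ 0 → Tendsto (fun n : ℕ => Rz (HW T (n : ℝ) V) z) atTop
      (𝓝 (RU T V z)) := fun z hz => (hA ι T hT V z hz).2.1
  have htu : ∀ z : ℂ, z.im ≠ 0 → ∀ u : LL ι, Tendsto (fun n : ℕ => Rz (HW T (n : ℝ) V) z u) atTop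
      (𝓝 (RU T V z u)) := fun z hz u => clm_tend (htd z hz) tendsto_const_nhds
  have hnb : ∀ z : ℂ, z.im ≠ 0 → ‖RU T V z‖ ≤ 1 / |z.im| := fun z hz =>
    le_of_tendsto (htd z hz).norm (Eventually.of_forall fun n => rz_opnorm _ (hrs n).sa z hz)
  refine ⟨hnb, ?_, ?_, ?_, ?_⟩
  · intro z w hz hw u
    have h1 : Tendsto (fun n : ℕ => Rz (HW T (n : ℝ) V) z u - Rz (HW T (n : ℝ) V) w u) atTop
        (𝓝 (RU T V z u - RU T V w u)) := (htu z hz u).sub (htu w hw u)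
    have h2 : Tendsto (fun n : ℕ => (z - w) • Rz (HW T (n : ℝ) V) z (Rz (HW T (n : ℝ) V) w u)) atTop
        (𝓝 ((z - w) • RU T V z (RU T V w u))) :=
      (clm_tend (htd z hz) (htu w hw u)).const_smul _
    refine tendsto_nhds_unique h1 (h2.congr fun n => ?_)
    rw [rz_sub_z _ (hrs n).sa z w hz hw u, map_smul]
  · intro z hz u v
    have hz' : (starRingEnd ℂ z).im ≠ 0 := by
      rw [Complex.conj_im]
      exact neg_ne_zero.mpr hz
    have h1 : Tendsto (fun n : ℕ => ⟪Rz (HW T (n : ℝ) V) z u, v⟫_ℂ) atTop (𝓝 ⟪RU T V z u, v⟫_ℂ) :=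
      (htu z hz u).inner tendsto_const_nhds
    have h2 : Tendsto (fun n : ℕ => ⟪u, Rz (HW T (n : ℝ) V) (starRingEnd ℂ z) v⟫_ℂ) atTop
        (𝓝 ⟪u, RU T V (starRingEnd ℂ z) v⟫_ℂ) := tendsto_const_nhds.inner (htu _ hz' v)
    refine tendsto_nhds_unique h1 (h2.congr fun n => ?_)
    exact (rz_ad _ (hrs n).sa z hz u v).symm
  · intro z hz x y
    have h1 : Tendsto (fun n : ℕ => Rz (HW T (n : ℝ) V) z (dv y) x) atTop
        (𝓝 (RU T V z (dv y) x)) := ((ev x).continuous.tendsto _).comp (htu z hz (dv y))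
    have h2 : Tendsto (fun n : ℕ => Rz (HW T (n : ℝ) V) z (dv x) y) atTop
        (𝓝 (RU T V z (dv x) y)) := ((ev y).continuous.tendsto _).comp (htu z hz (dv x))
    refine tendsto_nhds_unique h1 (h2.congr fun n => ?_)
    exact Gr_symm _ (hrs n) z y x hz
  · intro φ
    have hex : ∀ n : ℕ, ∃ m : Measure ℝ, SpM (HW T (n : ℝ) V) φ m ∧
        m Set.univ = ENNReal.ofReal (‖φ‖ ^ 2) := fun n => spm_exists _ (hrs n).sa φ
    choose mn hmn hmass using hex
    obtain ⟨m, hm1, hm2, hm3⟩ := herg_limit (‖φ‖ ^ 2) (by positivity) mn (fun n => (hmn n).1) hmass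
      (fun z => ⟪φ, RU T V z φ⟫_ℂ)
      (fun z hz => by
        have h1 : Tendsto (fun n : ℕ => ⟪φ, Rz (HW T (n : ℝ) V) z φ⟫_ℂ) atTop
            (𝓝 ⟪φ, RU T V z φ⟫_ℂ) := tendsto_const_nhds.inner (htu z hz φ)
        exact h1.congr fun n => (hmn n).2 z hz)
      (by
        have h2 := lim_vec hA T hT V hnb φ
        have h3 : Tendsto (fun r : ℝ =>
            ⟪φ, ((r : ℂ) * Complex.I) • RU T V ((r : ℂ) * Complex.I) φ + φ⟫_ℂ) atTop
            (𝓝 ⟪φ, (0 : LL ι)⟫_ℂ) := tendsto_const_nhds.inner h2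
        rw [inner_zero_right] at h3
        have h4 := (Complex.continuous_re.tendsto _).comp h3
        have h5 := (tendsto_const_nhds (x := ‖φ‖ ^ 2)).sub h4
        rw [Complex.zero_re, sub_zero] at h5
        refine h5.congr fun r => ?_
        show ‖φ‖ ^ 2 - (⟪φ, ((r : ℂ) * Complex.I) • RU T V ((r : ℂ) * Complex.I) φ + φ⟫_ℂ).re =
          r * (⟪φ, RU T V ((r : ℂ) * Complex.I) φ⟫_ℂ).im
        rw [inner_add_right, inner_smul_right, inner_self_eq_norm_sq_to_K, Complex.add_re]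
        have h6 : (((‖φ‖ : ℝ) : ℂ) ^ 2).re = ‖φ‖ ^ 2 := by
          rw [← Complex.ofReal_pow, Complex.ofReal_re]
        have h7 : (((‖φ‖ : ℝ) : ℂ) ^ 2) = ((RCLike.ofReal ‖φ‖ : ℂ)) ^ 2 := rfl
        rw [← h7, h6, mul_assoc, Complex.re_ofReal_mul, Complex.I_mul_re]
        ring)
    exact ⟨m, ⟨hm1, hm3⟩, hm2⟩

end Pool.Agent.H870.GA
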